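import Pool.Agent.K6.H34.TT.Stm
import Pool.Agent.W29.RT.CNT2

/-!
# Project TT, part CNTR: coprime pairs with given small prime factors and given signs

Adapted from `Pool.Agent.W29.RT.CNT2`.
-/

set_option autoImplicit false

namespace Pool.Agent.K6.H38.TT

open Finset Pool.Agent.W262.RK Pool.Agent.W307.RT Pool.Agent.K6.H34.TT
open Pool.Agent.W372.RK2 (mem_Tup' sq_pow_dvd mj mj_primes prod_gw)
open Pool.Agent.W29.RT (dvd_S1 dvd_S2 G2 c0 mj_eq al_coprime prod_pr un_of)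

/-! ### the part prime to `g` -/

lemma pg_dvd (g : ℕ) (x : ℤ) : pg g x ∣ x := by
  unfold pg
  rw [Int.natCast_dvd]
  rcases eq_or_ne x 0 with rfl | hx
  · simp
  · have hx' : x.natAbs ≠ 0 := Int.natAbs_ne_zero.2 hx
    conv_rhs => rw [← Nat.prod_factorization_pow_eq_self hx']
    unfold Finsupp.prod
    apply prod_dvd_prod_of_dvd
    intro p _
    simp only
    split_ifs
    · exact one_dvd _
    · exact dvd_rfl

lemma pg_pow {g : ℕ} {x : ℤ} {p : ℕ} (hp : p.Prime) (hg : ¬ p ∣ g) (hx : x ≠ 0) {k : ℕ}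
    (h : (p : ℤ) ^ k ∣ x) : (p : ℤ) ^ k ∣ pg g x := by
  rcases Nat.eq_zero_or_pos k with rfl | hk
  · simp
  have hx' : x.natAbs ≠ 0 := Int.natAbs_ne_zero.2 hx
  have h1 : p ^ k ∣ x.natAbs := by
    rw [← Int.natCast_dvd]
    push_cast
    exact h
  have h2 : k ≤ x.natAbs.factorization p := (hp.pow_dvd_iff_le_factorization hx').1 h1
  have h3 : p ∈ x.natAbs.factorization.support := by
    rw [Finsupp.mem_support_iff]; omega
  unfold pg
  have h4 : p ^ k ∣ x.natAbs.factorization.prod fun p k => if p ∣ g then 1 else p ^ k := by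
    unfold Finsupp.prod
    refine Dvd.dvd.trans ?_ (dvd_prod_of_mem _ h3)
    simp only
    rw [if_neg hg]
    exact pow_dvd_pow p h2
  exact_mod_cast Int.natCast_dvd_natCast.2 h4

lemma pg_not {g : ℕ} {x : ℤ} {p : ℕ} (hp : p.Prime) (h : (p : ℤ) ∣ pg g x) : ¬ p ∣ g := by
  intro hg
  unfold pg at h
  rw [Int.natCast_dvd_natCast] at h
  unfold Finsupp.prod at h
  obtain ⟨q, hq, hpq⟩ := (hp.prime.dvd_finsetProd_iff _).1 h
  simp only at hpq
  split_ifs at hpq with h1
  · exact hp.one_lt.ne' (Nat.dvd_one.1 hpq)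
  · have hq' : q.Prime := by
      rw [Finsupp.mem_support_iff] at hq
      by_contra h2
      exact hq (Nat.factorization_eq_zero_of_not_prime _ h2)
    have h2 := hp.dvd_of_dvd_pow hpq
    rw [(Nat.prime_dvd_prime_iff_eq hp hq').1 h2] at hg
    exact h1 hg

lemma pg_ne {g : ℕ} {x : ℤ} : pg g x ≠ 0 := by
  unfold pg
  rw [Nat.cast_ne_zero]
  unfold Finsupp.prod
  rw [Finset.prod_ne_zero_iff]
  intro q hq
  have hq' : q.Prime := by
    rw [Finsupp.mem_support_iff] at hq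
    by_contra h2
    exact hq (Nat.factorization_eq_zero_of_not_prime _ h2)
  simp only
  split_ifs
  · exact one_ne_zero
  · exact pow_ne_zero _ hq'.ne_zero

/-! ### the congruence for the first variable -/

lemma cong2 {z y Y : ℕ} {s v u : Fin 3 → ℕ} {f f' : Fin 3 → ℤ} {α : Fin 3 → ℤ} {g : ℕ}
    (hα : ∀ p : ℕ, p.Prime → z < p → ∀ j, ¬ (p : ℤ) ∣ α j) (hzy : z < y)
    (hs : s ∈ Tup (Fin 3) z y) (hv : v ∈ Tup (Fin 3) z y) (hu : u ∈ Tup (Fin 3) y Y) {t t' : ℤ}
    (g1 : G2 z y s v u (fun j => pg g (f j))) (g2 : G2 z y s v u (fun j => pg g (f' j)))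
    (hf : ∀ j, f j - f' j = α j * (t - t')) :
    ((∏ j, mj c0 s v u j : ℕ) : ℤ) ∣ t - t' := by
  have hs' := (mem_Tup'.1 hs).1
  have hv' := (mem_Tup'.1 hv).1
  have hu' := (mem_Tup'.1 hu).1
  rw [Nat.cast_prod]
  apply Finset.prod_dvd_of_coprime
  · intro j _ l _ hjl
    rw [Function.onFun, Nat.isCoprime_iff_coprime]
    apply Nat.coprime_of_dvd
    intro p hp hpj hpl
    have h1 := g1.fmj hu hzy hp hpj
    have h2 := g1.fmj hu hzy hp hpl
    exact hjl (g1.un p hp h1.1 j l h1.2 h2.2)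
  intro j _
  have hdiv : ∀ d : ℕ, (∀ p : ℕ, p.Prime → p ∣ d → z < p) →
      (d : ℤ) ∣ f j - f' j → (d : ℤ) ∣ t - t' := by
    intro d hd h
    rw [hf] at h
    exact (al_coprime hα j hd).dvd_of_dvd_mul_left h
  have hsz : ∀ p : ℕ, p.Prime → p ∣ s j → z < p := fun p hp h => (dv_prime (hs' j) hp h).1
  have hvz : ∀ p : ℕ, p.Prime → p ∣ v j → z < p := fun p hp h => (dv_prime (hv' j) hp h).1
  have huz : ∀ p : ℕ, p.Prime → p ∣ u j → z < p := fun p hp h =>
    hzy.trans (dv_prime (hu' j) hp h).1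
  have h1 : ((s j : ℕ) : ℤ) ∣ f j - f' j := by
    have h := sq_pow_dvd (dv_squarefree (hs' j)) 1 (f j - f' j)
      (fun p hp hpd => by
        rw [pow_one]
        exact dvd_sub ((g1.fs hp hpd).2.1.trans (pg_dvd g _)) ((g2.fs hp hpd).2.1.trans (pg_dvd g _)))
    rwa [pow_one] at h
  have h2 : ((v j ^ 2 : ℕ) : ℤ) ∣ f j - f' j := by
    have h := sq_pow_dvd (dv_squarefree (hv' j)) 2 (f j - f' j)
      (fun p hp hpd => dvd_sub ((g1.fv hp hpd).2.trans (pg_dvd g _)) ((g2.fv hp hpd).2.trans (pg_dvd g _)))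
    exact_mod_cast h
  have h4 : ((u j : ℕ) : ℤ) ∣ f j - f' j :=
    dvd_sub ((g1.hu j).trans (pg_dvd g _)) ((g2.hu j).trans (pg_dvd g _))
  have h5 : ((s j : ℕ) : ℤ) ∣ t - t' := hdiv _ hsz h1
  have h6 : ((v j ^ 2 : ℕ) : ℤ) ∣ t - t' :=
    hdiv _ (fun p hp h => hvz p hp (hp.dvd_of_dvd_pow h)) h2
  have h7 : ((u j : ℕ) : ℤ) ∣ t - t' := hdiv _ huz h4
  have hcop1 : IsCoprime ((s j : ℕ) : ℤ) ((v j ^ 2 : ℕ) : ℤ) := by
    rw [Nat.isCoprime_iff_coprime]
    apply Nat.coprime_of_dvd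
    intro p hp hps hpv
    exact (g1.fs hp hps).2.2 (g1.fv hp (hp.dvd_of_dvd_pow hpv)).2
  have hcop2 : IsCoprime ((s j * v j ^ 2 : ℕ) : ℤ) ((u j : ℕ) : ℤ) := by
    rw [Nat.isCoprime_iff_coprime]
    apply Nat.coprime_of_dvd
    intro p hp hps hpu
    have h8 : y < p := (g1.fu hu hp hpu).1
    have h9 : p ≤ y := by
      rcases hp.dvd_mul.1 hps with h | h
      · exact (dv_prime (hs' j) hp h).2
      · exact (dv_prime (hv' j) hp (hp.dvd_of_dvd_pow h)).2
    omega
  rw [mj_eq, Nat.cast_mul]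
  refine hcop2.mul_dvd ?_ h7
  rw [Nat.cast_mul]
  exact hcop1.mul_dvd h5 h6

/-! ### products of numbers at least one -/

lemma prod_sub_le {S A : Finset ℕ} {f : ℕ → ℝ} (hf : ∀ p ∈ A, 1 ≤ f p) (h : S ⊆ A) :
    ∏ p ∈ S, f p ≤ ∏ p ∈ A, f p := by
  rw [← prod_sdiff h]
  apply le_mul_of_one_le_left
  · exact prod_nonneg fun p hp => zero_le_one.trans (hf p (h hp))
  · calc (1 : ℝ) = ∏ p ∈ A \ S, (1 : ℝ) := by simp
      _ ≤ _ := prod_le_prod (fun _ _ => zero_le_one) fun p hp => hf p (mem_sdiff.1 hp).1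

lemma prod_union_le {S A B : Finset ℕ} {f : ℕ → ℝ} (hA : ∀ p ∈ A, 1 ≤ f p) (hB : ∀ p ∈ B, 1 ≤ f p)
    (h : S ⊆ A ∪ B) : ∏ p ∈ S, f p ≤ (∏ p ∈ A, f p) * ∏ p ∈ B, f p := by
  have h1 : ∏ p ∈ S, f p ≤ ∏ p ∈ A ∪ B, f p := prod_sub_le (fun p hp => by
    rcases mem_union.1 hp with hp | hp
    · exact hA p hp
    · exact hB p hp) h
  refine h1.trans ?_
  rw [← union_sdiff_self_eq_union, prod_union disjoint_sdiff]
  apply mul_le_mul_of_nonneg_left _ (prod_nonneg fun p hp => zero_le_one.trans (hA p hp))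
  exact prod_sub_le hB sdiff_subset

/-! ### the signs -/

/-- the partner index -/
def pt (j : Fin 3) : Fin 3 := if j = 0 then 1 else 0

/-- the sign of the index -/
def sg (j : Fin 3) : ℤ := if j = 2 then 1 else -1

lemma pt_ne (j : Fin 3) : j ≠ pt j := by fin_cases j <;> decide

lemma kp_eq (g : ℕ) (f : Fin 3 → ℤ) (j : Fin 3) : kp g f j = sg j * (g * f (pt j)) := by
  have h01 : (0 : Fin 3) ≠ 2 := by decide
  have h12 : (1 : Fin 3) ≠ 2 := by decide
  have h10 : (1 : Fin 3) ≠ 0 := by decide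
  have h20 : (2 : Fin 3) ≠ 0 := by decide
  have h21 : (2 : Fin 3) ≠ 1 := by decide
  fin_cases j
  · show kp g f 0 = sg 0 * (g * f (pt 0))
    unfold kp sg pt
    rw [if_pos rfl, if_neg h01, if_pos rfl]; ring
  · show kp g f 1 = sg 1 * (g * f (pt 1))
    unfold kp sg pt
    rw [if_neg h10, if_pos rfl, if_neg h12, if_neg h10]; ring
  · show kp g f 2 = sg 2 * (g * f (pt 2))
    unfold kp sg pt
    rw [if_neg h20, if_neg h21, if_pos rfl, if_neg h20]; ring

lemma sg_sq (j : Fin 3) : sg j = 1 ∨ sg j = -1 := by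
  unfold sg; split_ifs <;> simp

/-- the constant of the sign at the primes of the `j`-th form -/
def cj (α β : Fin 3 → ℤ) (j : Fin 3) : ℤ := sg j * (Res α β j (pt j) * α j)

/-- the constant of the sign at `p` -/
def kap (α β : Fin 3 → ℤ) (s : Fin 3 → ℕ) (g : ℕ) (p : ℕ) : ℤ :=
  ∑ j, if p ∣ s j then (g : ℤ) * cj α β j else 0

lemma kap_eq {α β : Fin 3 → ℤ} {s : Fin 3 → ℕ} {g p : ℕ} (hp : p.Prime)
    (hs : ∀ i j, i ≠ j → (s i).Coprime (s j)) {j : Fin 3} (hj : p ∣ s j) :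
    kap α β s g p = g * cj α β j := by
  unfold kap
  rw [Finset.sum_eq_single j]
  · rw [if_pos hj]
  · intro l _ hl
    rw [if_neg]
    intro h
    have := Nat.dvd_gcd hj h
    rw [hs j l hl.symm] at this
    exact hp.one_lt.ne' (Nat.dvd_one.1 this)
  · intro h; exact absurd (mem_univ j) h

lemma gcd_one {a : ℤ} {p : ℕ} (hp : p.Prime) (h : ¬ (p : ℤ) ∣ a) : a.gcd p = 1 := by
  rw [Int.gcd_comm, Int.gcd_eq_natAbs, Int.natAbs_natCast]
  exact (hp.coprime_iff_not_dvd).2 fun h1 => h (Int.natCast_dvd.2 h1)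

/-- the sign at a prime of the `j`-th form -/
lemma sign_eq {α β : Fin 3 → ℤ} {g : ℕ} {u v : ℤ} {p : ℕ} (hp : p.Prime) {j : Fin 3}
    (hα : ¬ (p : ℤ) ∣ α j) (hj : (p : ℤ) ∣ fv α β u v j) :
    jacobiSym (kp g (fv α β u v) j) p = jacobiSym (g * cj α β j * v) p := by
  have h1 : jacobiSym (kp g (fv α β u v) j) p = jacobiSym (kp g (fv α β u v) j * α j ^ 2) p := by
    rw [jacobiSym.mul_left, jacobiSym.sq_one' (gcd_one hp hα), mul_one]
  rw [h1]
  apply jacobiSym.mod_left'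
  apply Int.ModEq.symm
  rw [Int.modEq_iff_dvd, kp_eq]
  have h2 : sg j * (g * fv α β u v (pt j)) * α j ^ 2 - g * cj α β j * v
      = sg j * g * α j * α (pt j) * fv α β u v j := by
    unfold cj Res fv
    ring
  rw [h2]
  exact hj.mul_left _

/-- CNTR -/
theorem cntr_of (h : SVR2) (h2 : AVHR) (h3 : SGN) : CNTR := by
  intro α β z hB
  have hB1 : 2 * 3 + 2 ≤ z := by simpa using hB.1
  obtain ⟨C, K, y0, hC, hK, hSV⟩ := h (Fin 3) z hB.1
  simp only [Fintype.card_fin] at hSV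
  obtain ⟨CA, hCA, hav⟩ := h2 3 z hB1
  refine ⟨C * CA, K, y0, mul_nonneg hC hCA, hK, ?_⟩
  intro X y Y g hg hy0 hzy hX s hs w hw u hu hswu E
  have hs' := (mem_Tup'.1 hs).1
  have hsc := (mem_Tup'.1 hs).2
  have hw' := (mem_Tup'.1 hw).1
  have hu' := (mem_Tup'.1 hu).1
  have hz : 2 ≤ z := by omega
  have hc : 3 ≤ z := by omega
  have hlog : 0 ≤ (Real.log y) ^ 3 := pow_nonneg (Real.log_natCast_nonneg y) _
  have hgs : ∀ j, 0 ≤ gw 1 3 (s j) := fun j => gw_nonneg zero_le_one hc (hs' j)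
  have hgw : ∀ j, 0 ≤ gw 1 3 (w j) := fun j => gw_nonneg zero_le_one hc (hw' j)
  set T := (Icc 1 X ×ˢ Icc 1 X).filter (fun t : ℕ × ℕ => t.1.Coprime t.2 ∧
      (∀ j, fv α β (t.1 : ℤ) (t.2 : ℤ) j ≠ 0) ∧
      S1 z y (fun j => pg g (fv α β (t.1 : ℤ) (t.2 : ℤ) j)) = s ∧
      S2 z y (fun j => pg g (fv α β (t.1 : ℤ) (t.2 : ℤ) j)) = w ∧
      (∀ j, (u j : ℤ) ∣ pg g (fv α β (t.1 : ℤ) (t.2 : ℤ) j)) ∧
      EE s g (fv α β (t.1 : ℤ) (t.2 : ℤ)) = E) with hT
  have hun : ∀ t v : ℕ, t.Coprime v → ∀ p : ℕ, p.Prime → z < p → ∀ j l,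
      (p : ℤ) ∣ fv α β (t : ℤ) (v : ℤ) j → (p : ℤ) ∣ fv α β (t : ℤ) (v : ℤ) l → j = l := by
    intro t v htv p hp hzp j l hj hl
    by_contra hne
    have hv := un_of hB htv hp hzp hj
    have h1 : Res α β j l * (v : ℤ) =
        α j * fv α β (t : ℤ) (v : ℤ) l - α l * fv α β (t : ℤ) (v : ℤ) j := by
      unfold Res fv
      ring
    have h3 : (p : ℤ) ∣ Res α β j l * (v : ℤ) := by
      rw [h1]
      exact dvd_sub (hl.mul_left _) (hj.mul_left _)
    have hpI : Prime (p : ℤ) := Nat.prime_iff_prime_int.1 hp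
    rcases hpI.dvd_or_dvd h3 with h | h
    · exact (hB.2 p hp hzp).2 j l hne h
    · exact hv (Int.natCast_dvd_natCast.1 h)
  have hgood : ∀ t ∈ T, G2 z y s w u (fun j => pg g (fv α β (t.1 : ℤ) (t.2 : ℤ) j)) := by
    intro t ht
    rw [hT, mem_filter] at ht
    refine ⟨ht.2.2.2.1, ht.2.2.2.2.1, ht.2.2.2.2.2.1, ?_⟩
    intro p hp hzp j l hj hl
    exact hun t.1 t.2 ht.2.1 p hp hzp j l (hj.trans (pg_dvd g _)) (hl.trans (pg_dvd g _))
  have hg2 : (0 : ℝ) ≤ 2 ^ g.primeFactors.card := by positivity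
  rcases T.eq_empty_or_nonempty with hTe | ⟨t0, ht0⟩
  · rw [hTe, card_empty, Nat.cast_zero]
    apply div_nonneg _ hlog
    have h1 : 0 ≤ ∏ j, gw 1 3 (s j) := prod_nonneg fun j _ => hgs j
    have h2 : 0 ≤ ∏ j, gw 1 3 (w j) / w j :=
      prod_nonneg fun j _ => div_nonneg (hgw j) (Nat.cast_nonneg _)
    have h3 : 0 ≤ ∏ j, 1 / (u j : ℝ) := prod_nonneg fun j _ => by positivity
    positivity
  set m := ∏ j, mj c0 s w u j with hm
  have hmj1 : ∀ j, 1 ≤ mj c0 s w u j := by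
    intro j
    rw [mj_eq]
    have h1 := dv_pos (hs' j)
    have h2 := dv_pos (hw' j)
    have h3 := dv_pos (hu' j)
    exact Nat.succ_le_of_lt (by positivity)
  have hm1 : 1 ≤ m := Nat.succ_le_of_lt (prod_pos fun j _ => hmj1 j)
  have hm4 : m ^ 4 ≤ X := by
    refine le_trans ?_ hswu
    have h1 : m ≤ (∏ j, s j * w j * u j) ^ 2 := by
      rw [← prod_pow]
      apply prod_le_prod'
      intro j _
      rw [mj_eq]
      have h1 := dv_pos (hs' j)
      have h3 := dv_pos (hu' j)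
      calc s j * w j ^ 2 * u j ≤ (s j * s j) * w j ^ 2 * (u j * u j) := by
            apply Nat.mul_le_mul
            · apply Nat.mul_le_mul_right
              nlinarith
            · nlinarith
        _ = (s j * w j * u j) ^ 2 := by ring
    calc m ^ 4 ≤ ((∏ j, s j * w j * u j) ^ 2) ^ 4 := Nat.pow_le_pow_left h1 4
      _ = (∏ j, s j * w j * u j) ^ 8 := by rw [← pow_mul]
  have hsq := hgood t0 ht0
  -- the modulus of the second variable
  set M := ∏ j, s j with hM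
  have hM1 : 1 ≤ M := Nat.succ_le_of_lt (prod_pos fun j _ => dv_pos (hs' j))
  have hMm : M ∣ m := by
    rw [hM, hm]
    apply prod_dvd_prod_of_dvd
    intro j _
    rw [mj_eq, mul_assoc]
    exact dvd_mul_right _ _
  have hM2 : M ^ 2 ≤ X := by
    calc M ^ 2 ≤ m ^ 2 := Nat.pow_le_pow_left (Nat.le_of_dvd (by omega) hMm) 2
      _ ≤ m ^ 4 := Nat.pow_le_pow_right hm1 (by norm_num)
      _ ≤ X := hm4
  have hMsq : Squarefree M := by
    rw [hM]
    apply Finset.squarefree_prod_of_pairwise_isCoprime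
    · intro i _ j _ hij
      exact Nat.coprime_iff_isRelPrime.1 (hsc i j hij)
    · intro i _
      exact dv_squarefree (hs' i)
  have hMP : ∀ p : ℕ, p.Prime → p ∣ M → ∃ j, p ∣ s j := by
    intro p hp hpM
    rw [hM] at hpM
    obtain ⟨j, _, hj⟩ := (hp.prime.dvd_finsetProd_iff _).1 hpM
    exact ⟨j, hj⟩
  have hMz : ∀ p : ℕ, p.Prime → p ∣ M → z < p := by
    intro p hp hpM
    obtain ⟨j, hj⟩ := hMP p hp hpM
    exact (dv_prime (hs' j) hp hj).1
  have hModd : Odd M := by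
    rw [Nat.odd_iff]
    by_contra hcon
    have h2 : 2 ∣ M := by omega
    have := hMz 2 Nat.prime_two h2
    omega
  have hpg : ∀ p : ℕ, p.Prime → p ∣ M → ¬ p ∣ g := by
    intro p hp hpM
    obtain ⟨j, hj⟩ := hMP p hp hpM
    exact pg_not hp (hsq.fs hp hj).2.1
  have hkap : ∀ p ∈ M.primeFactors, ¬ (p : ℤ) ∣ kap α β s g p := by
    intro p hp
    have hpp := Nat.prime_of_mem_primeFactors hp
    have hpM := Nat.dvd_of_mem_primeFactors hp
    obtain ⟨j, hj⟩ := hMP p hpp hpM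
    rw [kap_eq hpp hsc hj]
    have hpI : Prime (p : ℤ) := Nat.prime_iff_prime_int.1 hpp
    intro hd
    rcases hpI.dvd_or_dvd hd with h | h
    · exact hpg p hpp hpM (Int.natCast_dvd_natCast.1 h)
    · unfold cj at h
      rcases hpI.dvd_or_dvd h with h | h
      · rcases sg_sq j with h1 | h1
        · rw [h1] at h; exact hpI.not_isUnit (isUnit_of_dvd_one h)
        · rw [h1] at h; exact hpI.not_isUnit (isUnit_of_dvd_one ((dvd_neg).1 h))
      · rcases hpI.dvd_or_dvd h with h | h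
        · exact (hB.2 p hpp (hMz p hpp hpM)).2 j (pt j) (pt_ne j) h
        · exact (hB.2 p hpp (hMz p hpp hpM)).1 j h
  set RE := (range M).filter (fun r : ℕ => ∀ p ∈ M.primeFactors,
    jacobiSym (kap α β s g p * r) p = if p ∈ E then -1 else 1) with hRE
  have hREc : (RE.card : ℝ) ≤ M * (1 / 2) ^ M.primeFactors.card :=
    h3 M (kap α β s g) E hMsq hModd hkap
  -- the residue of the second variable
  have hres : ∀ t ∈ T, t.2 % M ∈ RE := by
    intro t ht
    have hG := hgood t ht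
    rw [hT, mem_filter] at ht
    obtain ⟨_, hcop, hne, _, _, _, hE⟩ := ht
    rw [hRE, mem_filter, mem_range]
    refine ⟨Nat.mod_lt _ (by omega), ?_⟩
    intro p hp
    have hpp := Nat.prime_of_mem_primeFactors hp
    have hpM := Nat.dvd_of_mem_primeFactors hp
    obtain ⟨j, hj⟩ := hMP p hpp hpM
    have hzp := hMz p hpp hpM
    have hfj : (p : ℤ) ∣ fv α β (t.1 : ℤ) (t.2 : ℤ) j := (hG.fs hpp hj).2.1.trans (pg_dvd g _)
    have hmod : jacobiSym (kap α β s g p * ((t.2 % M : ℕ) : ℤ)) p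
        = jacobiSym (kp g (fv α β (t.1 : ℤ) (t.2 : ℤ)) j) p := by
      rw [sign_eq hpp ((hB.2 p hpp hzp).1 j) hfj, kap_eq hpp hsc hj]
      apply jacobiSym.mod_left'
      apply Int.ModEq.mul_left
      have h4 : ((t.2 % M : ℕ) : ℤ) ≡ (t.2 : ℤ) [ZMOD M] := by
        rw [Int.natCast_mod]; exact Int.mod_modEq _ _
      exact h4.of_dvd (Int.natCast_dvd_natCast.2 hpM)
    rw [hmod]
    have hiff : p ∈ E ↔ jacobiSym (kp g (fv α β (t.1 : ℤ) (t.2 : ℤ)) j) p = -1 := by
      rw [← hE]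
      unfold EE
      rw [mem_filter]
      constructor
      · rintro ⟨_, l, hl, hl2⟩
        have hjl : j = l := by
          by_contra hjl
          have := Nat.dvd_gcd hj hl
          rw [hsc j l hjl] at this
          exact hpp.one_lt.ne' (Nat.dvd_one.1 this)
        rw [hjl]; exact hl2
      · intro h4
        exact ⟨hp, j, hj, h4⟩
    have hnd : ¬ (p : ℤ) ∣ kp g (fv α β (t.1 : ℤ) (t.2 : ℤ)) j := by
      rw [kp_eq]
      have hpI : Prime (p : ℤ) := Nat.prime_iff_prime_int.1 hpp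
      intro hd
      rcases hpI.dvd_or_dvd hd with h | h
      · rcases sg_sq j with h1 | h1
        · rw [h1] at h; exact hpI.not_isUnit (isUnit_of_dvd_one h)
        · rw [h1] at h; exact hpI.not_isUnit (isUnit_of_dvd_one ((dvd_neg).1 h))
      · rcases hpI.dvd_or_dvd h with h | h
        · exact hpg p hpp hpM (Int.natCast_dvd_natCast.1 h)
        · exact pt_ne j (hun t.1 t.2 hcop p hpp hzp j (pt j) hfj h)
    split_ifs with hpE
    · exact hiff.1 hpE
    · rcases jacobiSym.eq_one_or_neg_one (gcd_one hpp hnd) with h4 | h4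
      · exact h4
      · exact absurd (hiff.2 h4) hpE
  -- factors
  set gf : ℕ → ℝ := fun p => (p : ℝ) / ((p : ℝ) - ((3 : ℕ) : ℝ)) with hgf
  have hgf1 : ∀ p, z < p → 1 ≤ gf p := by
    intro p hp
    have h1 : ((3 : ℕ) : ℝ) < p := by exact_mod_cast lt_of_le_of_lt hc hp
    rw [hgf]
    simp only
    rw [le_div_iff₀ (by linarith)]
    have : (0 : ℝ) ≤ ((3 : ℕ) : ℝ) := Nat.cast_nonneg _
    linarith
  have hgf2 : ∀ p, z < p → gf p ≤ 2 := by
    intro p hp
    have h1 : (8 : ℝ) < p := by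
      have : 8 < p := by omega
      exact_mod_cast this
    rw [hgf]
    simp only
    push_cast
    rw [div_le_iff₀ (by linarith)]
    linarith
  set Gm : ℝ := ∏ p ∈ m.primeFactors.filter (fun p => p ∈ PS z y), gf p with hGm
  have hGm0 : 0 ≤ Gm := prod_nonneg fun p hp =>
    zero_le_one.trans (hgf1 p (mem_PS.1 (mem_filter.1 hp).2).1.1)
  set Gv : ℕ → ℝ := fun v => ∏ p ∈ v.primeFactors.filter (fun p => z < p ∧ ¬ p ∣ M), gf p with hGv
  have hGv0 : ∀ v, 0 ≤ Gv v := fun v => prod_nonneg fun p hp =>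
    zero_le_one.trans (hgf1 p (mem_filter.1 hp).2.1)
  have hGg : ∏ p ∈ g.primeFactors.filter (fun p => z < p), gf p ≤ 2 ^ g.primeFactors.card := by
    calc ∏ p ∈ g.primeFactors.filter (fun p => z < p), gf p
        ≤ ∏ p ∈ g.primeFactors.filter (fun p => z < p), (2 : ℝ) :=
          prod_le_prod (fun p hp => zero_le_one.trans (hgf1 p (mem_filter.1 hp).2))
            fun p hp => hgf2 p (mem_filter.1 hp).2
      _ = 2 ^ (g.primeFactors.filter (fun p => z < p)).card := by rw [prod_const]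
      _ ≤ 2 ^ g.primeFactors.card := pow_le_pow_right₀ (by norm_num) (card_filter_le _ _)
  have hmul : ∀ v : ℕ, v ≠ 0 → ∏ p ∈ (m * (v * g)).primeFactors.filter (fun p => p ∈ PS z y), gf p ≤
      Gm * (Gv v * 2 ^ g.primeFactors.card) := by
    intro v hv
    have hsub : (m * (v * g)).primeFactors.filter (fun p => p ∈ PS z y) ⊆
        m.primeFactors.filter (fun p => p ∈ PS z y) ∪
          (v.primeFactors.filter (fun p => z < p ∧ ¬ p ∣ M) ∪ g.primeFactors.filter (fun p => z < p)) := by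
      intro p hp
      rw [mem_filter, Nat.mem_primeFactors] at hp
      obtain ⟨⟨hpp, hpd, _⟩, hpS⟩ := hp
      have hzp := (mem_PS.1 hpS).1.1
      by_cases hpm : p ∣ m
      · exact mem_union_left _ (mem_filter.2 ⟨Nat.mem_primeFactors.2 ⟨hpp, hpm, by omega⟩, hpS⟩)
      · apply mem_union_right
        rcases hpp.dvd_mul.1 hpd with h | h
        · exact absurd h hpm
        · rcases hpp.dvd_mul.1 h with h | h
          · exact mem_union_left _ (mem_filter.2 ⟨Nat.mem_primeFactors.2 ⟨hpp, h, hv⟩, hzp,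
              fun h5 => hpm (h5.trans hMm)⟩)
          · exact mem_union_right _ (mem_filter.2 ⟨Nat.mem_primeFactors.2 ⟨hpp, h, hg⟩, hzp⟩)
    have hA : ∀ p ∈ m.primeFactors.filter (fun p => p ∈ PS z y), 1 ≤ gf p := fun p hp =>
      hgf1 p (mem_PS.1 (mem_filter.1 hp).2).1.1
    have hB' : ∀ p ∈ v.primeFactors.filter (fun p => z < p ∧ ¬ p ∣ M), 1 ≤ gf p := fun p hp =>
      hgf1 p (mem_filter.1 hp).2.1
    have hD : ∀ p ∈ g.primeFactors.filter (fun p => z < p), 1 ≤ gf p := fun p hp =>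
      hgf1 p (mem_filter.1 hp).2
    refine (prod_union_le hA (fun p hp => ?_) hsub).trans ?_
    · rcases mem_union.1 hp with hp | hp
      · exact hB' p hp
      · exact hD p hp
    · apply mul_le_mul_of_nonneg_left _ hGm0
      refine (prod_union_le hB' hD (Subset.refl _)).trans ?_
      exact mul_le_mul_of_nonneg_left hGg (hGv0 v)
  -- bound for a fixed second variable
  have hfib : ∀ v ∈ Icc 1 X, ((T.filter (fun t : ℕ × ℕ => t.2 = v)).card : ℝ) ≤
      C * (X / m) * (Gm * (Gv v * 2 ^ g.primeFactors.card)) / (Real.log y) ^ 3 := by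
    intro v hv
    rw [mem_Icc] at hv
    have hv0 : v ≠ 0 := by omega
    have hcond : ∀ p ∈ PS z y, ¬ p ∣ m * (v * g) → (∀ j, ¬ (p : ℤ) ∣ α j) ∧
        ∀ j l, j ≠ l → ¬ (p : ℤ) ∣ Res α (fun j => β j * (v : ℤ)) j l := by
      intro p hp hpm
      have hpp := (mem_PS.1 hp).2
      have hzp := (mem_PS.1 hp).1.1
      refine ⟨(hB.2 p hpp hzp).1, fun j l hjl hd => ?_⟩
      have h1 : Res α (fun j => β j * (v : ℤ)) j l = Res α β j l * (v : ℤ) := by
        unfold Res
        ring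
      rw [h1] at hd
      have hpI : Prime (p : ℤ) := Nat.prime_iff_prime_int.1 hpp
      rcases hpI.dvd_or_dvd hd with h | h
      · exact (hB.2 p hpp hzp).2 j l hjl h
      · exact hpm (((Int.natCast_dvd_natCast.1 h).mul_right _).mul_left _)
    have hbd : ∀ r : ℕ, (((Icc 1 X).filter (fun t : ℕ => t ≡ r [MOD m] ∧
        ∀ p ∈ PS z y, ¬ p ∣ m * (v * g) →
        ∀ j, ¬ (p : ℤ) ∣ ff α (fun j => β j * (v : ℤ)) t j)).card : ℝ) ≤
        C * (X / m) * (Gm * (Gv v * 2 ^ g.primeFactors.card)) / (Real.log y) ^ 3 := by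
      intro r
      have h6 := hSV X y hy0 hzy hX α (fun j => β j * (v : ℤ)) m (m * (v * g)) r hm1
        (dvd_mul_right _ _) (mul_ne_zero (by omega) (mul_ne_zero hv0 hg)) hm4 hcond
      refine le_trans (le_of_eq ?_) (h6.trans ?_)
      · congr!
      apply div_le_div_of_nonneg_right _ hlog
      apply mul_le_mul_of_nonneg_left (hmul v hv0)
      positivity
    rcases (T.filter (fun t : ℕ × ℕ => t.2 = v)).eq_empty_or_nonempty with he | ⟨r, hr⟩
    · rw [he, card_empty, Nat.cast_zero]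
      exact le_trans (Nat.cast_nonneg _) (hbd 0)
    · refine le_trans ?_ (hbd r.1)
      rw [Nat.cast_le]
      apply card_le_card_of_injOn (fun t : ℕ × ℕ => t.1)
      · intro t ht
        have ht' : t ∈ T.filter (fun t : ℕ × ℕ => t.2 = v) := ht
        rw [mem_filter] at ht' hr
        have g1 := hgood t ht'.1
        have g2 := hgood r hr.1
        have htX : t.1 ∈ Icc 1 X := (mem_product.1 (mem_filter.1 ht'.1).1).1
        have htne := (mem_filter.1 ht'.1).2.2.1
        simp only [coe_filter, Set.mem_ofPred_eq]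
        rw [ht'.2] at g1 htne
        rw [hr.2] at g2
        refine ⟨htX, ?_, ?_⟩
        · have h1 := cong2 (α := α) (fun p hp hz => (hB.2 p hp hz).1) hzy hs hw hu g1 g2
            (t := (t.1 : ℤ)) (t' := (r.1 : ℤ)) (fun j => by unfold fv; ring)
          rw [← hm] at h1
          exact ((Nat.modEq_iff_dvd.2 h1)).symm
        · intro p hpP hpm j hpf
          have hp := (mem_PS.1 hpP).2
          have hpgg : ¬ p ∣ g := fun h5 => hpm ((h5.mul_left _).mul_left _)
          apply hpm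
          apply Dvd.dvd.mul_right
          rw [hm]
          refine Dvd.dvd.trans ?_ (dvd_prod_of_mem _ (mem_univ j))
          rw [mj_eq]
          have hff : ff α (fun j => β j * (v : ℤ)) (t.1 : ℤ) j = fv α β (t.1 : ℤ) (v : ℤ) j := by
            unfold ff fv
            ring
          rw [hff] at hpf
          by_cases h2 : (p : ℤ) ^ 2 ∣ pg g (fv α β (t.1 : ℤ) (v : ℤ) j)
          · have h3 : p ∣ w j := by
              rw [← g1.hv]
              exact (dvd_S2 hp).2 ⟨hpP, h2⟩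
            exact (((h3.pow two_ne_zero).mul_left _).mul_right _)
          · have h3 : p ∣ s j := by
              rw [← g1.hs]
              refine (dvd_S1 hp).2 ⟨hpP, ?_, h2⟩
              have h6 := pg_pow hp hpgg (htne j) (k := 1) (by rwa [pow_one])
              rwa [pow_one] at h6
            exact ((h3.mul_right _).mul_right _)
      · intro a ha b hb hab
        have ha' : a ∈ T.filter (fun t : ℕ × ℕ => t.2 = v) := ha
        have hb' : b ∈ T.filter (fun t : ℕ × ℕ => t.2 = v) := hb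
        rw [mem_filter] at ha' hb'
        exact Prod.ext hab (ha'.2.trans hb'.2.symm)
  -- bound for a fixed residue of the second variable
  have hfr : ∀ r ∈ RE, ((T.filter (fun t : ℕ × ℕ => t.2 % M = r)).card : ℝ) ≤
      C * (X / m) * (Gm * (CA * (X / M) * 2 ^ g.primeFactors.card)) / (Real.log y) ^ 3 := by
    intro r hr
    have hrM : r < M := mem_range.1 (mem_filter.1 hr).1
    rw [card_eq_sum_card_fiberwise (f := fun t : ℕ × ℕ => t.2)
      (t := (Icc 1 X).filter (fun v => v ≡ r [MOD M])) (fun t ht => by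
        have ht' : t ∈ T.filter (fun t : ℕ × ℕ => t.2 % M = r) := ht
        rw [mem_filter] at ht'
        have h4 : t.2 ∈ (Icc 1 X).filter (fun v => v ≡ r [MOD M]) := by
          rw [mem_filter]
          refine ⟨(mem_product.1 (mem_filter.1 ht'.1).1).2, ?_⟩
          rw [← ht'.2]
          exact (Nat.mod_modEq _ _).symm
        exact h4)]
    rw [Nat.cast_sum]
    have h5 : ∀ v ∈ (Icc 1 X).filter (fun v => v ≡ r [MOD M]),
        ((((T.filter (fun t : ℕ × ℕ => t.2 % M = r)).filter (fun t : ℕ × ℕ => t.2 = v)).card : ℕ) : ℝ) ≤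
        C * (X / m) * (Gm * (Gv v * 2 ^ g.primeFactors.card)) / (Real.log y) ^ 3 := by
      intro v hv
      refine le_trans ?_ (hfib v (mem_filter.1 hv).1)
      rw [Nat.cast_le]
      apply card_le_card
      intro t ht
      rw [mem_filter, mem_filter] at ht
      rw [mem_filter]
      exact ⟨ht.1.1, ht.2⟩
    refine (sum_le_sum h5).trans ?_
    rw [← sum_div, ← mul_sum, ← mul_sum, ← sum_mul]
    apply div_le_div_of_nonneg_right _ hlog
    apply mul_le_mul_of_nonneg_left _ (by positivity)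
    apply mul_le_mul_of_nonneg_left _ hGm0
    apply mul_le_mul_of_nonneg_right _ hg2
    exact hav X M r hM1 hM2
  have hcard : (T.card : ℝ) ≤ RE.card *
      (C * (X / m) * (Gm * (CA * (X / M) * 2 ^ g.primeFactors.card)) / (Real.log y) ^ 3) := by
    rw [card_eq_sum_card_fiberwise (f := fun t : ℕ × ℕ => t.2 % M) (t := RE) (fun t ht => hres t ht)]
    rw [Nat.cast_sum]
    refine (sum_le_sum hfr).trans ?_
    rw [sum_const, nsmul_eq_mul]
  have hnn : 0 ≤ C * (X / m) * (Gm * (CA * (X / M) * 2 ^ g.primeFactors.card)) / (Real.log y) ^ 3 := by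
    apply div_nonneg _ hlog
    positivity
  refine hcard.trans ((mul_le_mul_of_nonneg_right hREc hnn).trans ?_)
  have hGmeq : Gm = ∏ j, ((s j * gw 1 3 (s j)) * (w j * gw 1 3 (w j))) := by
    have h6 := prod_pr hs hw hu hsq
    simp only [Fintype.card_fin] at h6
    exact h6
  have hterm : ∀ j, ((s j * gw 1 3 (s j)) * (w j * gw 1 3 (w j))) /
      ((mj c0 s w u j : ℕ) : ℝ) = gw 1 3 (s j) * (gw 1 3 (w j) / w j) * (1 / (u j : ℝ)) := by
    intro j
    have h1 : (s j : ℝ) ≠ 0 := Nat.cast_ne_zero.2 (dv_ne_zero (hs' j))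
    have h2 : (w j : ℝ) ≠ 0 := Nat.cast_ne_zero.2 (dv_ne_zero (hw' j))
    have h3 : (u j : ℝ) ≠ 0 := Nat.cast_ne_zero.2 (dv_ne_zero (hu' j))
    rw [mj_eq]
    rw [Nat.cast_mul, Nat.cast_mul, Nat.cast_pow]
    field_simp
  have hprod : Gm / (m : ℝ) = (∏ j, gw 1 3 (s j)) *
        (∏ j, gw 1 3 (w j) / w j) * (∏ j, 1 / (u j : ℝ)) := by
    rw [hGmeq, hm, Nat.cast_prod, ← prod_div_distrib, ← prod_mul_distrib, ← prod_mul_distrib]
    exact prod_congr rfl fun j _ => hterm j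
  apply le_of_eq
  have hMne : (M : ℝ) ≠ 0 := by
    have : (0 : ℝ) < M := by exact_mod_cast hM1
    exact this.ne'
  rw [show C * CA * X ^ 2 * 2 ^ g.primeFactors.card * (1 / 2) ^ M.primeFactors.card *
        (∏ j, gw 1 3 (s j)) * (∏ j, gw 1 3 (w j) / w j) * (∏ j, 1 / (u j : ℝ)) =
      C * CA * X ^ 2 * 2 ^ g.primeFactors.card * (1 / 2) ^ M.primeFactors.card *
        ((∏ j, gw 1 3 (s j)) * (∏ j, gw 1 3 (w j) / w j) * (∏ j, 1 / (u j : ℝ))) by ring, ← hprod]
  field_simp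

end Pool.Agent.K6.H38.TT
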